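import Pool.Agent.H247.VE.Stm

/-!
# Close periodic points are chain equivalent, relative version (`S_PO2`)

Adapted from `Pool/Agent/H894/SD/PO.lean` (helper894).
-/

set_option autoImplicit false

open scoped Topology
open Filter Set Metric

universe u

namespace Pool.Agent.H363.VE

open Pool.Agent.R774.OS (CR mem_CR Ch)
open Pool.Agent.Q182.MC (ChainTo cls chainTo_iff)
open Pool.Agent.H247.SD Pool.Agent.H247.VE

/-- the pseudo-orbit which alternates between the orbits of `p` and `q` -/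
noncomputable def po {X : Type u} (f : X → X) (p q : X) (n j : ℕ) : X :=
  if (j / n) % 2 = 0 then f^[j] p else f^[j] q

theorem iter_mul {X : Type u} {f : X → X} {c : ℕ} {p : X} (h : f^[c] p = p) (t : ℕ) :
    f^[c * t] p = p := by
  rw [Function.iterate_mul]
  exact Function.iterate_fixed h t

theorem po_per {X : Type u} {f : X → X} {p q : X} {n : ℕ} (hn : 0 < n) (hp : f^[n] p = p)
    (hq : f^[n] q = q) (j : ℕ) : po f p q n (j + n * 2) = po f p q n j := by
  unfold po
  have h1 : (j + n * 2) / n = j / n + 2 := Nat.add_mul_div_left j 2 hn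
  rw [h1, Nat.add_mod_right, Function.iterate_add_apply, Function.iterate_add_apply,
    iter_mul hp, iter_mul hq]

theorem po_jump {X : Type u} [MetricSpace X] {f : X → X} {p q : X} {n : ℕ}
    (hp : f^[n] p = p) (hq : f^[n] q = q) {δ : ℝ} (hδ : 0 < δ) (hpq : dist p q < δ) (j : ℕ) :
    dist (f (po f p q n j)) (po f p q n (j + 1)) < δ := by
  unfold po
  rw [Nat.succ_div]
  by_cases hd : n ∣ j + 1
  · rw [if_pos hd]
    obtain ⟨t, ht⟩ := hd
    have hp' : f^[j + 1] p = p := by rw [ht]; exact iter_mul hp t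
    have hq' : f^[j + 1] q = q := by rw [ht]; exact iter_mul hq t
    rcases Nat.mod_two_eq_zero_or_one (j / n) with h | h
    · have h2 : ¬ (j / n + 1) % 2 = 0 := by omega
      rw [if_pos h, if_neg h2, hq', ← Function.iterate_succ_apply' f j p, hp']
      exact hpq
    · have h1 : ¬ (j / n) % 2 = 0 := by omega
      have h2 : (j / n + 1) % 2 = 0 := by omega
      rw [if_neg h1, if_pos h2, hp', ← Function.iterate_succ_apply' f j q, hq', dist_comm]
      exact hpq
  · rw [if_neg hd, add_zero]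
    split_ifs with h
    · rw [← Function.iterate_succ_apply' f j p, dist_self]
      exact hδ
    · rw [← Function.iterate_succ_apply' f j q, dist_self]
      exact hδ

theorem per_iter {X : Type u} {f : X → X} {m : ℕ} {z : X} (h : f^[m] z = z) (j : ℕ) :
    f^[m] (f^[j] z) = f^[j] z := by
  rw [← Function.iterate_add_apply, add_comm, Function.iterate_add_apply, h]

/-- uniform closeness from expansivity and compactness -/
theorem close {X : Type u} [MetricSpace X] [CompactSpace X] (G : X ≃ₜ X) {K : Set X} {ε₀ : ℝ}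
    (hEx : ∀ x ∈ K, ∀ y, (∀ i : ℕ, dist (G^[i] x) (G^[i] y) ≤ ε₀ ∧
      dist (G.symm^[i] x) (G.symm^[i] y) ≤ ε₀) → x = y)
    {p : X} (hp : p ∈ K) {s : ℝ} (hs : 0 < s) :
    ∃ M : ℕ, ∀ u, (∀ i ≤ M, dist (G^[i] p) (G^[i] u) ≤ ε₀ ∧
      dist (G.symm^[i] p) (G.symm^[i] u) ≤ ε₀) → dist p u < s := by
  by_contra hcon
  push Not at hcon
  set t : ℕ → Set X := fun M => {u | (∀ i ≤ M, dist (G^[i] p) (G^[i] u) ≤ ε₀ ∧
      dist (G.symm^[i] p) (G.symm^[i] u) ≤ ε₀) ∧ s ≤ dist p u} with ht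
  have hcl : ∀ M, IsClosed (t M) := by
    intro M
    have h1 : t M = (⋂ i ∈ Set.Iic M, ({u | dist (G^[i] p) (G^[i] u) ≤ ε₀} ∩
        {u | dist (G.symm^[i] p) (G.symm^[i] u) ≤ ε₀})) ∩ {u | s ≤ dist p u} := by
      ext u
      rw [ht]
      simp only [mem_setOf_eq, mem_inter_iff, mem_iInter, mem_Iic]
    rw [h1]
    refine IsClosed.inter (isClosed_biInter fun i _ => IsClosed.inter (isClosed_le ?_
      continuous_const) (isClosed_le ?_ continuous_const)) (isClosed_le continuous_const ?_)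
    · exact continuous_const.dist (G.continuous.iterate i)
    · exact continuous_const.dist (G.symm.continuous.iterate i)
    · exact continuous_const.dist continuous_id
  have hne : (⋂ M, t M).Nonempty := by
    refine IsCompact.nonempty_iInter_of_sequence_nonempty_isCompact_isClosed t ?_ ?_
      (hcl 0).isCompact hcl
    · intro M u hu
      exact ⟨fun i hi => hu.1 i (by omega), hu.2⟩
    · intro M
      obtain ⟨u, hu1, hu2⟩ := hcon M
      exact ⟨u, hu1, hu2⟩
  obtain ⟨u, hu⟩ := hne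
  rw [mem_iInter] at hu
  have h1 : p = u := hEx p hp u fun i => (hu i).1 i le_rfl
  have h2 := (hu 0).2
  rw [← h1, dist_self] at h2
  linarith

theorem symm_iter {X : Type u} [TopologicalSpace X] (G : X ≃ₜ X) (i k : ℕ) (hik : i ≤ k) (y : X) :
    G.symm^[i] (G^[k] y) = G^[k - i] y := by
  obtain ⟨j, rfl⟩ := Nat.exists_eq_add_of_le hik
  have h1 : Function.LeftInverse G.symm G := G.symm_apply_apply
  rw [Function.iterate_add_apply, Nat.add_sub_cancel_left]
  exact h1.iterate i _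

theorem near {X : Type u} [MetricSpace X] (G : X ≃ₜ X) {z y : X} {ε₀ : ℝ} {N M : ℕ}
    (hMN : M ≤ N) (hz : G^[N] z = z)
    (h1 : ∀ i ≤ M, dist (G^[i + N] y) (G^[i + N] z) < ε₀)
    (h2 : ∀ i ≤ M, dist (G^[N - i] y) (G^[N - i] z) < ε₀) :
    ∀ i ≤ M, dist (G^[i] z) (G^[i] (G^[N] y)) ≤ ε₀ ∧
      dist (G.symm^[i] z) (G.symm^[i] (G^[N] y)) ≤ ε₀ := by
  intro i hi
  constructor
  · have h3 := h1 i hi
    rw [Function.iterate_add_apply (⇑G) i N z, hz, Function.iterate_add_apply (⇑G) i N y,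
      dist_comm] at h3
    exact h3.le
  · have h3 := h2 i hi
    have h4 : G.symm^[i] z = G^[N - i] z := by
      conv_lhs => rw [← hz]
      exact symm_iter G i N (hi.trans hMN) z
    rw [h4, symm_iter G i N (hi.trans hMN) y, dist_comm]
    exact h3.le

/-- chains from `p` to `q` -/
theorem chain {X : Type u} [MetricSpace X] [CompactSpace X] (G : X ≃ₜ X) {K : Set X} {ε₀ δ : ℝ}
    (hfwd : ∀ x ∈ K, G x ∈ K)
    (hEx : ∀ x ∈ K, ∀ y, (∀ i : ℕ, dist (G^[i] x) (G^[i] y) ≤ ε₀ ∧
      dist (G.symm^[i] x) (G.symm^[i] y) ≤ ε₀) → x = y)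
    (hδ : 0 < δ)
    (hSh : ∀ (p : ℕ) (x : ℕ → X), 1 ≤ p → (∀ j, x (j + p) = x j) →
      (∀ j, x j ∈ K) → (∀ j, dist (G (x j)) (x (j + 1)) < δ) →
      ∃ y, G^[p] y = y ∧ ∀ j, dist (G^[j] y) (x j) < ε₀)
    {p q : X} (hpC : p ∈ K) (hqC : q ∈ K) (hp : ∃ k : ℕ, 1 ≤ k ∧ G^[k] p = p) (hq : ∃ k : ℕ, 1 ≤ k ∧ G^[k] q = q)
    (hpq : dist p q < δ) : ChainTo (G : X → X) univ p q := by
  obtain ⟨a, ha, hap⟩ := hp
  obtain ⟨b, hb, hbq⟩ := hq
  obtain ⟨c, hc⟩ : ∃ c : ℕ, c = a * b := ⟨_, rfl⟩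
  have hc1 : 1 ≤ c := by rw [hc]; exact Nat.mul_pos ha hb
  have hcp : G^[c] p = p := by rw [hc]; exact iter_mul hap b
  have hcq : G^[c] q = q := by rw [hc, mul_comm]; exact iter_mul hbq a
  have hit : ∀ x ∈ K, ∀ j : ℕ, G^[j] x ∈ K := by
    intro x hx j
    induction j with
    | zero => exact hx
    | succ j ih =>
      rw [Function.iterate_succ_apply']
      exact hfwd _ ih
  refine chainTo_iff.2 fun s hs => ?_
  have hs : 0 < s := hs
  obtain ⟨η, hη, hu⟩ := Pool.Agent.R774.OS.unif G.continuous hs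
  obtain ⟨M₁, hM₁⟩ := close G hEx hpC hη
  obtain ⟨M₂, hM₂⟩ := close G hEx hqC hs
  -- `N` is a multiple of the period, larger than `M₁` and `M₂`
  obtain ⟨N, hN⟩ : ∃ N : ℕ, N = c * (M₁ + M₂ + 1) := ⟨_, rfl⟩
  have hN1 : M₁ + M₂ + 1 ≤ N := by
    rw [hN]
    exact Nat.le_mul_of_pos_left _ hc1
  have hNp : G^[N] p = p := by rw [hN]; exact iter_mul hcp _
  have hNq : G^[N] q = q := by rw [hN]; exact iter_mul hcq _
  have h2p : G^[N * 2] p = p := iter_mul hNp 2
  have h2q : G^[N * 2] q = q := iter_mul hNq 2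
  have h3q : G^[N * 3] q = q := iter_mul hNq 3
  obtain ⟨y, -, hy⟩ := hSh (N * 2 * 2) (po (⇑G) p q (N * 2)) (by omega)
    (fun j => po_per (by omega) h2p h2q j)
    (fun j => by
      unfold po
      split_ifs
      · exact hit p hpC j
      · exact hit q hqC j)
    (po_jump h2p h2q hδ hpq)
  have hy1 : ∀ j, j < N * 2 → dist (G^[j] y) (G^[j] p) < ε₀ := by
    intro j hj
    have h1 := hy j
    unfold po at h1
    rw [Nat.div_eq_of_lt hj, if_pos (Nat.zero_mod 2)] at h1
    exact h1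
  have hy2 : ∀ j, N * 2 ≤ j → j < N * 4 → dist (G^[j] y) (G^[j] q) < ε₀ := by
    intro j hj hj2
    have h1 := hy j
    have h2 : j / (N * 2) = 1 := by
      apply Nat.div_eq_of_lt_le
      · omega
      · omega
    unfold po at h1
    rw [h2, if_neg (by norm_num)] at h1
    exact h1
  have hu1 : dist p (G^[N] y) < η := by
    refine hM₁ _ (near G (by omega) hNp (fun i hi => hy1 _ (by omega)) fun i hi =>
      hy1 _ (by omega))
  have hv1 : dist q (G^[N * 3] y) < s := by
    refine hM₂ _ (near G (by omega) h3q (fun i hi => hy2 _ (by omega) (by omega)) fun i hi =>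
      hy2 _ (by omega) (by omega))
  -- the chain
  have hstep : ∀ j : ℕ, Relation.TransGen (Pool.Agent.Q182.MC.R (⇑G) univ s) p
      (G^[j + 1] (G^[N] y)) := by
    intro j
    induction j with
    | zero =>
      refine Relation.TransGen.single ⟨mem_univ _, mem_univ _, ?_⟩
      rw [zero_add, Function.iterate_one]
      exact hu _ _ hu1
    | succ j ih =>
      refine ih.tail ⟨mem_univ _, mem_univ _, ?_⟩
      rw [← Function.iterate_succ_apply' (⇑G) (j + 1), dist_self]
      exact hs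
  have h5 := hstep (N * 2 - 2)
  refine h5.tail ⟨mem_univ _, mem_univ _, ?_⟩
  rw [← Function.iterate_succ_apply' (⇑G), ← Function.iterate_add_apply,
    show (N * 2 - 2 + 1).succ + N = N * 3 by omega, dist_comm]
  exact hv1

theorem main : S_PO2.{u} := by
  intro X _ _ G K hK hSh hEx
  obtain ⟨ε₀, hε₀, hEx⟩ := hEx
  obtain ⟨δ, hδ, hSh⟩ := hSh ε₀ hε₀
  refine ⟨δ, hδ, fun p hpK q hqK hp hq hpq => ⟨?_, ?_⟩⟩
  · exact chain G hK.fwd hEx hδ hSh hpK hqK hp hq hpq
  · exact chain G hK.fwd hEx hδ hSh hqK hpK hq hp (by rwa [dist_comm])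

end Pool.Agent.H363.VE
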